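import Pool.Agent.Helper60.PlzA.Goals

/-!
# Packet PLA MAIN (project of helper60): the average gain of a walk
-/

set_option autoImplicit false

namespace Pool.Agent.Helper34.PlzA

open Finset Pool.Agent.Helper93.Plz Pool.Agent.Helper60.PlzA

open scoped Classical

section Aux

variable {V : Type} [Fintype V]

lemma cod_symm (G : SimpleGraph V) (a b : V) : cod G a b = cod G b a := by
  unfold cod cmn
  congr 1
  ext w
  simp only [mem_filter, mem_univ, true_and]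
  exact and_comm

lemma cod_le (G : SimpleGraph V) (a b : V) : cod G a b ≤ dgr G a := by
  unfold cod cmn dgr nbs
  apply card_le_card
  intro w hw
  simp only [mem_filter, mem_univ, true_and] at hw ⊢
  exact hw.1

lemma rho2_le (G : SimpleGraph V) (t : ℕ) (hd : ∀ v, dgr G v ≤ t) (v : V) :
    rho2 G v ≤ t ^ 2 := by
  unfold rho2
  calc ∑ y ∈ nbs G v, cod G v y ≤ ∑ y ∈ nbs G v, t :=
        sum_le_sum (fun y _ => (cod_le G v y).trans (hd v))
    _ = dgr G v * t := by rw [sum_const, smul_eq_mul]; rfl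
    _ ≤ t * t := Nat.mul_le_mul_right _ (hd v)
    _ = t ^ 2 := by ring

lemma sum_wk0 (G : SimpleGraph V) (F : V → ℝ) :
    ∑ y ∈ Wk G 0, F (y 0) = ∑ v, F v := by
  have h : Wk G 0 = univ := by
    unfold Wk
    rw [filter_true_of_mem]
    intro x _ i hi
    exact absurd hi (Nat.not_lt_zero i)
  rw [h]
  exact Fintype.sum_equiv (Equiv.funUnique (Fin 1) V) _ _ (fun y => rfl)

lemma sum_wk1 (G : SimpleGraph V) (F : V → V → ℝ) :
    ∑ y ∈ Wk G 1, F (y 0) (y 1) = ∑ v, ∑ z ∈ nbs G v, F z v := by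
  have h : ∀ y : Fin 2 → V, y ∈ Wk G 1 ↔ G.Adj (y 0) (y 1) := by
    intro y
    unfold Wk
    simp only [mem_filter, mem_univ, true_and]
    constructor
    · intro hy
      exact hy 0 (by norm_num)
    · intro hy i hi
      have : i = 0 := by omega
      subst this
      exact hy
  calc ∑ y ∈ Wk G 1, F (y 0) (y 1)
      = ∑ y : Fin 2 → V, if G.Adj (y 0) (y 1) then F (y 0) (y 1) else 0 := by
        rw [← sum_filter]
        apply sum_congr _ (fun _ _ => rfl)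
        ext y
        rw [h y]
        simp only [mem_filter, mem_univ, true_and]
    _ = ∑ p : V × V, if G.Adj p.1 p.2 then F p.1 p.2 else 0 :=
        Fintype.sum_equiv (finTwoArrowEquiv V) _ _ (fun y => rfl)
    _ = ∑ z, ∑ v, if G.Adj z v then F z v else 0 := Fintype.sum_prod_type _
    _ = ∑ v, ∑ z, if G.Adj z v then F z v else 0 := sum_comm
    _ = ∑ v, ∑ z ∈ nbs G v, F z v := by
        apply sum_congr rfl
        intro v _
        unfold nbs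
        rw [sum_filter]
        apply sum_congr rfl
        intro z _
        rw [G.adj_comm]

/-- the moments, not normalized -/
noncomputable def MM (G : SimpleGraph V) (t : ℕ) (j : ℕ) : ℝ :=
  ∑ v, ∑ z ∈ nbs G v, ((cod G z v : ℝ) / t) ^ j

lemma swap (G : SimpleGraph V) (t : ℕ) (κ : ℝ) (k : ℕ) :
    ∑ x ∈ Wk G k, ∑ i ∈ Ks G x, gain G t κ x i =
      ∑ i ∈ range (k + 1), ∑ x ∈ (Wk G k).filter (fun x => Kp G x i), gain G t κ x i := by
  unfold Ks
  simp only [sum_filter]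
  exact sum_comm

lemma split (k : ℕ) (hk : 4 ≤ k) (A : ℕ → ℝ) :
    ∑ i ∈ range (k + 1), A i = A 0 + A 1 + A 2 + A k + ∑ i ∈ Ico 3 k, A i := by
  rw [sum_range_succ, ← sum_range_add_sum_Ico A (show 3 ≤ k by omega), sum_range_succ,
    sum_range_succ, sum_range_one]
  ring

end Aux

theorem main (h1 : S_WINT) (h2 : S_MID) (h3 : S_STARG) : S_MAIN := by
  intro κ k hκ hκ4 hk hkk
  have hk' : (4 : ℝ) ≤ k := by exact_mod_cast hk
  obtain ⟨L, hL⟩ := exists_nat_ge (30 * ((k : ℝ) - 3) / κ + 1)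
  have hLpos : (0 : ℝ) < L := by
    have : 0 ≤ 30 * ((k : ℝ) - 3) / κ := by
      apply div_nonneg _ hκ.le
      nlinarith
    linarith
  have hL1 : 1 ≤ L := by exact_mod_cast hLpos
  have hLb : ((k : ℝ) - 3) * (30 / L) ≤ κ := by
    have h4 : 30 * ((k : ℝ) - 3) / κ ≤ L := by linarith
    rw [div_le_iff₀ hκ] at h4
    rw [← mul_div_assoc, div_le_iff₀ hLpos]
    linarith
  set D : ℝ := (k : ℝ) + 6 * ((k : ℝ) - 1) + ((k : ℝ) - 3) * (4 * (L : ℝ) ^ 3 +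
    20 * ((k : ℝ) + 1)) + 3 * κ with hD
  have hL3 : (0 : ℝ) < (L : ℝ) ^ 3 := by positivity
  have hDpos : 0 < D := by
    have : 0 ≤ ((k : ℝ) - 3) * (4 * (L : ℝ) ^ 3 + 20 * ((k : ℝ) + 1)) := by
      apply mul_nonneg (by linarith)
      nlinarith
    rw [hD]
    nlinarith
  refine ⟨κ / D, div_pos hκ hDpos, ?_⟩
  intro V _ G t γ hγ hγ0 hR
  have hd := hR.deg
  have ht0 : (0 : ℝ) < t := by
    have h := hR.one
    by_contra hcon
    have h0 : (t : ℝ) ≤ 0 := not_lt.mp hcon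
    nlinarith
  have hγD : γ * D ≤ κ := by
    rwa [le_div_iff₀ hDpos] at hγ0
  set n : ℝ := (Fintype.card V : ℝ) with hn
  have hn0 : 0 ≤ n := Nat.cast_nonneg _
  have hcod : ∀ a b : V, (cod G a b : ℝ) ≤ t := fun a b => by
    exact_mod_cast (cod_le G a b).trans (hd a)
  have hcod0 : ∀ a b : V, (0 : ℝ) ≤ (cod G a b : ℝ) := fun a b => Nat.cast_nonneg _
  have hrho : ∀ v : V, (rho2 G v : ℝ) ≤ (t : ℝ) ^ 2 := fun v => by
    exact_mod_cast rho2_le G t hd v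
  have hrho0 : ∀ v : V, (0 : ℝ) ≤ (rho2 G v : ℝ) := fun v => Nat.cast_nonneg _
  have ht2 : (0 : ℝ) < (t : ℝ) ^ 2 := by positivity
  -- moments
  have hM1 : (t : ℝ) * MM G t 1 = ∑ v, (rho2 G v : ℝ) := by
    unfold MM rho2
    rw [mul_sum]
    apply sum_congr rfl
    intro v _
    rw [mul_sum]
    push_cast
    apply sum_congr rfl
    intro z _
    rw [pow_one, cod_symm G v z]
    field_simp
  have hM0 : MM G t 0 = ∑ v, (dgr G v : ℝ) := by
    unfold MM dgr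
    apply sum_congr rfl
    intro v _
    simp
  have hM0le : MM G t 0 ≤ n * t := by
    rw [hM0]
    calc ∑ v, (dgr G v : ℝ) ≤ ∑ v : V, (t : ℝ) := sum_le_sum (fun v _ => by exact_mod_cast hd v)
      _ = n * t := by rw [sum_const, card_univ, nsmul_eq_mul]
  have hM0ge : (1 - γ) * (n * t) ≤ MM G t 0 := by
    have h4 := hR.dfc
    rw [sum_sub_distrib, sum_const, card_univ, nsmul_eq_mul, ← hM0] at h4
    nlinarith
  -- index 0
  have hA0 : (t : ℝ) ^ k * ((1 / 4 + κ) * (t : ℝ) ^ 2 * n - t * MM G t 1) -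
      k * (t : ℝ) ^ 2 * γ * n * (t : ℝ) ^ k ≤ ∑ x ∈ Wk G k, gain G t κ x 0 := by
    have h4 := h1 V inferInstance G t γ hd hR.dfc k 0 0 (by omega)
      (fun y => (1 / 4 + κ) * (t : ℝ) ^ 2 - rho2 G (y 0)) ((t : ℝ) ^ 2)
      (fun y => by
        rw [abs_le]
        have := hrho (y 0)
        have := hrho0 (y 0)
        constructor
        · nlinarith
        · nlinarith)
    have hs0 : ∑ v, ((1 / 4 + κ) * (t : ℝ) ^ 2 - rho2 G v) =
        n * ((1 / 4 + κ) * (t : ℝ) ^ 2) - t * MM G t 1 := by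
      rw [sum_sub_distrib, sum_const, card_univ, nsmul_eq_mul, hM1]
    rw [sum_wk0 G (fun v => (1 / 4 + κ) * (t : ℝ) ^ 2 - rho2 G v), hs0] at h4
    have h5 : ∑ x ∈ Wk G k, gain G t κ x 0 = ∑ x ∈ Wk G k,
        ((1 / 4 + κ) * (t : ℝ) ^ 2 - rho2 G (ev x (0 + ((0 : Fin 1) : ℕ)))) := by
      apply sum_congr rfl
      intro x _
      unfold gain
      simp
    rw [h5]
    have h6 := (abs_le.mp h4).1
    simp only [Nat.sub_zero, Nat.cast_zero, sub_zero] at h6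
    have h7 : (t : ℝ) ^ k * ((1 / 4 + κ) * (t : ℝ) ^ 2 * n - t * MM G t 1) =
      (t : ℝ) ^ k * (n * ((1 / 4 + κ) * (t : ℝ) ^ 2) - t * MM G t 1) := by ring
    rw [h7]
    linarith
  -- the sums over adjacent pairs
  have hP : (t : ℝ) ^ 2 * ((1 / 4 + κ) * MM G t 0 - MM G t 1 + MM G t 2) ≤
      ∑ v, ∑ z ∈ nbs G v, ((1 / 4 + κ) * (t : ℝ) ^ 2 - rho2 G v + (cod G z v : ℝ) ^ 2) := by
    have h4 : ∀ v, ∑ z ∈ nbs G v,
        ((1 / 4 + κ) * (t : ℝ) ^ 2 - rho2 G v + (cod G z v : ℝ) ^ 2) =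
        (1 / 4 + κ) * (t : ℝ) ^ 2 * dgr G v - dgr G v * rho2 G v +
          (t : ℝ) ^ 2 * ∑ z ∈ nbs G v, ((cod G z v : ℝ) / t) ^ 2 := by
      intro v
      rw [sum_add_distrib, sum_const, nsmul_eq_mul, mul_sum]
      have h5 : ∀ z ∈ nbs G v, (cod G z v : ℝ) ^ 2 = (t : ℝ) ^ 2 * ((cod G z v : ℝ) / t) ^ 2 := by
        intro z _
        field_simp
      rw [sum_congr rfl h5]
      unfold dgr
      ring
    rw [sum_congr rfl (fun v _ => h4 v), sum_add_distrib, sum_sub_distrib, ← mul_sum, ← mul_sum,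
      ← hM0]
    have h6 : ∑ v, (dgr G v : ℝ) * rho2 G v ≤ t * (t * MM G t 1) := by
      rw [hM1, mul_sum]
      apply sum_le_sum
      intro v _
      apply mul_le_mul_of_nonneg_right _ (hrho0 v)
      exact_mod_cast hd v
    have h7 : ∑ v, ∑ z ∈ nbs G v, ((cod G z v : ℝ) / t) ^ 2 = MM G t 2 := rfl
    rw [h7]
    nlinarith
  -- indices 1, 2, k
  have hA1 : ∀ i, 1 ≤ i → i ≤ k → (t : ℝ) ^ (k - 1) * ((t : ℝ) ^ 2 *
      ((1 / 4 + κ) * MM G t 0 - MM G t 1 + MM G t 2)) -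
      ((k : ℝ) - 1) * (2 * (t : ℝ) ^ 2) * γ * n * (t : ℝ) ^ k ≤ ∑ x ∈ Wk G k, gain G t κ x i := by
    intro i hi1 hik
    obtain ⟨j, rfl⟩ : ∃ j, i = j + 1 := ⟨i - 1, by omega⟩
    have h4 := h1 V inferInstance G t γ hd hR.dfc k j 1 (by omega)
      (fun y => (1 / 4 + κ) * (t : ℝ) ^ 2 - rho2 G (y 1) + (cod G (y 0) (y 1) : ℝ) ^ 2)
      (2 * (t : ℝ) ^ 2)
      (fun y => by
        rw [abs_le]
        have a1 := hrho (y 1)
        have a2 := hrho0 (y 1)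
        have a3 := hcod (y 0) (y 1)
        have a4 := hcod0 (y 0) (y 1)
        have a5 : (cod G (y 0) (y 1) : ℝ) ^ 2 ≤ (t : ℝ) ^ 2 := pow_le_pow_left₀ a4 a3 2
        have a6 : 0 ≤ (cod G (y 0) (y 1) : ℝ) ^ 2 := by positivity
        constructor
        · nlinarith
        · nlinarith)
    rw [sum_wk1 G (fun z v => (1 / 4 + κ) * (t : ℝ) ^ 2 - rho2 G v + (cod G z v : ℝ) ^ 2)] at h4
    have h5 : ∑ x ∈ Wk G k, gain G t κ x (j + 1) = ∑ x ∈ Wk G k,
        ((1 / 4 + κ) * (t : ℝ) ^ 2 - rho2 G (ev x (j + ((1 : Fin 2) : ℕ))) +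
          (cod G (ev x (j + ((0 : Fin 2) : ℕ))) (ev x (j + ((1 : Fin 2) : ℕ))) : ℝ) ^ 2) := by
      apply sum_congr rfl
      intro x _
      unfold gain
      rw [if_pos (by omega), Nat.add_sub_cancel]
      rfl
    rw [h5]
    have h6 := (abs_le.mp h4).1
    simp only [Nat.cast_one] at h6
    have h7 := mul_le_mul_of_nonneg_left hP (show 0 ≤ (t : ℝ) ^ (k - 1) by positivity)
    linarith
  -- indices 3 ≤ i < k
  have hSt := h3 V inferInstance G t γ hR L hL1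
  have hA3 : ∀ i ∈ Ico 3 k, (t : ℝ) ^ (k - 1) * (κ * (t : ℝ) ^ 2 * (MM G t 0 - MM G t 3) -
      (4 * (L : ℝ) ^ 3 * γ + 30 / L) * n * (t : ℝ) ^ 3) -
      20 * ((k : ℝ) + 1) * γ * n * (t : ℝ) ^ (k + 2) ≤
      ∑ x ∈ (Wk G k).filter (fun x => Kp G x i), gain G t κ x i := by
    intro i hi
    rw [mem_Ico] at hi
    have h4 := h2 V inferInstance G t γ κ hκ.le hκ4 hR k i hi.1 (by omega)
    have h5 : ∑ v, ∑ z ∈ nbs G v, (1 - ((cod G z v : ℝ) / t) ^ 3) *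
        ((1 / 4 + κ) * (t : ℝ) ^ 2 - rho2 G v + (cod G z v : ℝ) ^ 2) =
        κ * (t : ℝ) ^ 2 * (MM G t 0 - MM G t 3) +
        ∑ v, ∑ z ∈ nbs G v, (1 - ((cod G z v : ℝ) / t) ^ 3) *
        (1 / 4 * (t : ℝ) ^ 2 - rho2 G v + (cod G z v : ℝ) ^ 2) := by
      unfold MM
      rw [← sum_sub_distrib, mul_sum, ← sum_add_distrib]
      apply sum_congr rfl
      intro v _
      rw [← sum_sub_distrib, mul_sum, ← sum_add_distrib]
      apply sum_congr rfl
      intro z _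
      ring
    rw [h5] at h4
    have h6 : κ * (t : ℝ) ^ 2 * (MM G t 0 - MM G t 3) -
      (4 * (L : ℝ) ^ 3 * γ + 30 / L) * n * (t : ℝ) ^ 3 ≤
        κ * (t : ℝ) ^ 2 * (MM G t 0 - MM G t 3) +
        ∑ v, ∑ z ∈ nbs G v, (1 - ((cod G z v : ℝ) / t) ^ 3) *
        (1 / 4 * (t : ℝ) ^ 2 - rho2 G v + (cod G z v : ℝ) ^ 2) := by
      linarith
    have h7 := mul_le_mul_of_nonneg_left h6 (show 0 ≤ (t : ℝ) ^ (k - 1) by positivity)
    linarith
  -- the moment inequalities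
  have hθ0 : ∀ z v : V, 0 ≤ (cod G z v : ℝ) / t := fun z v => div_nonneg (hcod0 z v) ht0.le
  have hθ1 : ∀ z v : V, (cod G z v : ℝ) / t ≤ 1 := fun z v => by
    rw [div_le_one ht0]; exact hcod z v
  have hmm : 0 ≤ 2 * MM G t 0 - 4 * MM G t 1 + 3 * MM G t 2 - MM G t 3 := by
    have h4 : 2 * MM G t 0 - 4 * MM G t 1 + 3 * MM G t 2 - MM G t 3 =
        ∑ v, ∑ z ∈ nbs G v, (2 * ((cod G z v : ℝ) / t) ^ 0 - 4 * ((cod G z v : ℝ) / t) ^ 1 +
          3 * ((cod G z v : ℝ) / t) ^ 2 - ((cod G z v : ℝ) / t) ^ 3) := by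
      unfold MM
      simp only [mul_sum, ← sum_sub_distrib, ← sum_add_distrib]
    rw [h4]
    apply sum_nonneg
    intro v _
    apply sum_nonneg
    intro z _
    have a := hθ0 z v
    have b := hθ1 z v
    generalize (cod G z v : ℝ) / t = θ at a b
    have : 2 * θ ^ 0 - 4 * θ ^ 1 + 3 * θ ^ 2 - θ ^ 3 = (1 - θ) * (2 - 2 * θ + θ ^ 2) := by ring
    rw [this]
    apply mul_nonneg (by linarith)
    nlinarith [sq_nonneg θ]
  have hm03 : 0 ≤ MM G t 0 - MM G t 3 := by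
    unfold MM
    rw [← sum_sub_distrib]
    apply sum_nonneg
    intro v _
    rw [← sum_sub_distrib]
    apply sum_nonneg
    intro z _
    have : ((cod G z v : ℝ) / t) ^ 3 ≤ 1 := pow_le_one₀ (hθ0 z v) (hθ1 z v)
    rw [pow_zero]
    linarith
  -- assembly
  rw [swap, split k hk]
  have hall : ∀ i, i ≤ k → ¬ (3 ≤ i ∧ i + 1 ≤ k) →
      ∑ x ∈ (Wk G k).filter (fun x => Kp G x i), gain G t κ x i =
        ∑ x ∈ Wk G k, gain G t κ x i := by
    intro i hi hi'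
    rw [filter_true_of_mem]
    intro x _
    exact ⟨hi, fun h => hi' ⟨h.1, h.2.1⟩⟩
  rw [hall 0 (by omega) (by omega), hall 1 (by omega) (by omega), hall 2 (by omega) (by omega),
    hall k le_rfl (by omega)]
  have hsum := card_nsmul_le_sum (Ico 3 k) _ _ hA3
  rw [Nat.card_Ico, nsmul_eq_mul, Nat.cast_sub (by omega)] at hsum
  have b0 := hA0
  have b1 := hA1 1 le_rfl (by omega)
  have b2 := hA1 2 (by omega) (by omega)
  have b3 := hA1 k (by omega) le_rfl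
  push_cast at hsum
  -- powers
  set T : ℝ := (t : ℝ) ^ (k + 1) with hT
  have hTpos : 0 < T := by positivity
  have e1 : (t : ℝ) ^ (k + 2) = T * t := by rw [hT]; ring
  have e2 : (t : ℝ) ^ k * t = T := by rw [hT]; ring
  have e3 : (t : ℝ) ^ (k - 1) * (t : ℝ) ^ 2 = T := by
    rw [hT, ← pow_add]; congr 1; omega
  have e4 : (t : ℝ) ^ (k - 1) * (t : ℝ) ^ 3 = T * t := by
    rw [hT, ← pow_succ, ← pow_add]; congr 1; omega
  have e5 : (t : ℝ) ^ k * (t : ℝ) ^ 2 = T * t := by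
    rw [hT]; ring
  set N : ℝ := n * (T * t) with hN
  have hN0 : 0 ≤ N := by positivity
  have hTt : 0 ≤ T * t := by positivity
  have c0 : (1 / 4 + κ) * N - T * MM G t 1 - k * γ * N ≤ ∑ x ∈ Wk G k, gain G t κ x 0 := by
    have : (t : ℝ) ^ k * ((1 / 4 + κ) * (t : ℝ) ^ 2 * n - t * MM G t 1) -
      k * (t : ℝ) ^ 2 * γ * n * (t : ℝ) ^ k = (1 / 4 + κ) * N - T * MM G t 1 - k * γ * N := by
      rw [hN, ← e5, ← e2]; ring
    linarith
  have c1 : ∀ i, (t : ℝ) ^ (k - 1) * ((t : ℝ) ^ 2 *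
      ((1 / 4 + κ) * MM G t 0 - MM G t 1 + MM G t 2)) -
      ((k : ℝ) - 1) * (2 * (t : ℝ) ^ 2) * γ * n * (t : ℝ) ^ k ≤ ∑ x ∈ Wk G k, gain G t κ x i →
      (1 / 4 + κ) * (T * MM G t 0) - T * MM G t 1 + T * MM G t 2 - 2 * ((k : ℝ) - 1) * γ * N ≤
        ∑ x ∈ Wk G k, gain G t κ x i := by
    intro i hi
    have : (t : ℝ) ^ (k - 1) * ((t : ℝ) ^ 2 *
      ((1 / 4 + κ) * MM G t 0 - MM G t 1 + MM G t 2)) -
      ((k : ℝ) - 1) * (2 * (t : ℝ) ^ 2) * γ * n * (t : ℝ) ^ k =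
      (1 / 4 + κ) * (T * MM G t 0) - T * MM G t 1 + T * MM G t 2 -
        2 * ((k : ℝ) - 1) * γ * N := by
      rw [← mul_assoc, e3, hN, ← e5]; ring
    linarith
  have c3 : ((k : ℝ) - 3) * (κ * (T * (MM G t 0 - MM G t 3)) -
      (4 * (L : ℝ) ^ 3 * γ + 30 / L) * N - 20 * ((k : ℝ) + 1) * γ * N) ≤
      ∑ i ∈ Ico 3 k, ∑ x ∈ (Wk G k).filter (fun x => Kp G x i), gain G t κ x i := by
    have : (t : ℝ) ^ (k - 1) * (κ * (t : ℝ) ^ 2 * (MM G t 0 - MM G t 3) -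
      (4 * (L : ℝ) ^ 3 * γ + 30 / L) * n * (t : ℝ) ^ 3) -
      20 * ((k : ℝ) + 1) * γ * n * (t : ℝ) ^ (k + 2) =
      κ * (T * (MM G t 0 - MM G t 3)) -
      (4 * (L : ℝ) ^ 3 * γ + 30 / L) * N - 20 * ((k : ℝ) + 1) * γ * N := by
      have : (t : ℝ) ^ (k - 1) * (κ * (t : ℝ) ^ 2 * (MM G t 0 - MM G t 3) -
        (4 * (L : ℝ) ^ 3 * γ + 30 / L) * n * (t : ℝ) ^ 3) =
        κ * (((t : ℝ) ^ (k - 1) * (t : ℝ) ^ 2) * (MM G t 0 - MM G t 3)) -
        (4 * (L : ℝ) ^ 3 * γ + 30 / L) * n * ((t : ℝ) ^ (k - 1) * (t : ℝ) ^ 3) := by ring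
      rw [this, e3, e4, e1, hN]; ring
    rw [this] at hsum
    exact hsum
  have d1 := c1 1 b1
  have d2 := c1 2 b2
  have d3 := c1 k b3
  have f0 : T * MM G t 0 ≤ N := by
    have := mul_le_mul_of_nonneg_left hM0le hTpos.le
    rw [hN]; linarith
  have f1 : (1 - γ) * N ≤ T * MM G t 0 := by
    have := mul_le_mul_of_nonneg_left hM0ge hTpos.le
    rw [hN]; linarith
  have f2 : 0 ≤ 2 * (T * MM G t 0) - 4 * (T * MM G t 1) + 3 * (T * MM G t 2) -
      T * MM G t 3 := by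
    have := mul_nonneg hTpos.le hmm
    linarith
  have f3 : 0 ≤ T * (MM G t 0 - MM G t 3) := mul_nonneg hTpos.le hm03
  have f4 : T * (MM G t 0 - MM G t 3) ≤
      ((k : ℝ) - 3) * (κ * (T * (MM G t 0 - MM G t 3))) := by
    have := mul_le_mul_of_nonneg_right hkk f3
    linarith
  have goal1 : 2 * κ * n * (t : ℝ) ^ (k + 2) = 2 * κ * N := by
    rw [e1, hN]; ring
  rw [goal1]
  have g1 : γ * D * N ≤ κ * N := mul_le_mul_of_nonneg_right hγD hN0
  have g2 : ((k : ℝ) - 3) * (30 / L) * N ≤ κ * N := mul_le_mul_of_nonneg_right hLb hN0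
  rw [hD] at g1
  have g3 : 0 ≤ κ * (T * MM G t 0 - (1 - γ) * N) := mul_nonneg hκ.le (by linarith)
  generalize 30 / (L : ℝ) = q at *
  nlinarith
end Pool.Agent.Helper34.PlzA
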